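import Mathlib
import Pool.Agent.H83.TateGal
import Pool.Agent.H83.TateLin

namespace Pool.Agent.Results.MP_0fca13_ag.SurfacePowers

open Polynomial

variable {Ω V : Type*} [Field Ω] [AddCommGroup V] [Module Ω V]

/-- The algebra endomorphism of the symmetric algebra of `V` induced by `F : V → V`. -/
def symMap (F : V →ₗ[Ω] V) : SymmetricAlgebra Ω V →ₐ[Ω] SymmetricAlgebra Ω V :=
  SymmetricAlgebra.lift (SymmetricAlgebra.ι Ω V ∘ₗ F)

/-- Tate classes of degree `n`: elements of the `n`-th symmetric power of `V` on which, for some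
`N > 0`, the endomorphism induced by `F ^ N` acts as multiplication by `s ^ (N * n)`. -/
def tate (F : V →ₗ[Ω] V) (s : Ω) (n : ℕ) : Set (SymmetricAlgebra Ω V) :=
  {x | x ∈ (LinearMap.range (SymmetricAlgebra.ι Ω V)) ^ n ∧
    ∃ N : ℕ, 0 < N ∧ symMap (F ^ N) x = s ^ (N * n) • x}

theorem symMap_ι (F : V →ₗ[Ω] V) (x : V) :
    symMap F (SymmetricAlgebra.ι Ω V x) = SymmetricAlgebra.ι Ω V (F x) := by
  unfold symMap
  rw [SymmetricAlgebra.lift_ι_apply]; rfl

theorem pow_apply (F : V →ₗ[Ω] V) (n : ℕ) (x : V) (a : Ω) (hx : F x = a • x) :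
    (F ^ n) x = a ^ n • x := by
  induction n with
  | zero => simp
  | succ n ih => rw [pow_succ, Module.End.mul_apply, hx, map_smul, ih, smul_smul, pow_succ']

theorem ne_zero_of_roots {l : ℕ} (hl : 0 < l) (k : ℕ) {s : ℕ} (h : ℚ[X]) (hirr : Irreducible h)
    (hdeg : h.natDegree = 2 * l ^ k) (hweil : ∀ z : ℂ, aeval z h = 0 → ‖z‖ = (s : ℝ)) : s ≠ 0 := by
  intro hs
  have hex : ∃ z : ℂ, aeval z h = 0 := by
    apply IsAlgClosed.exists_aeval_eq_zero
    have : 0 < h.natDegree := by
      rw [hdeg]; exact Nat.mul_pos two_pos (pow_pos hl k)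
    intro hd
    rw [natDegree_eq_zero_iff_degree_le_zero.2 (by rw [hd])] at this
    exact lt_irrefl _ this
  obtain ⟨z, hz⟩ := hex
  have hz0 : z = 0 := by
    have := hweil z hz
    rw [hs] at this
    simpa using this
  subst hz0
  have h0' : h.coeff 0 = 0 := by
    have := hz
    rw [← coeff_zero_eq_aeval_zero'] at this
    exact (map_eq_zero_iff _ (algebraMap ℚ ℂ).injective).1 this
  obtain ⟨r, hr⟩ := X_dvd_iff.2 h0'
  rcases hirr.isUnit_or_isUnit hr with hu' | hu'
  · exact not_isUnit_X hu'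
  · have : h.natDegree = 1 := by
      rw [hr, natDegree_mul X_ne_zero hu'.ne_zero, natDegree_X,
        natDegree_eq_zero_of_isUnit hu']
    rw [hdeg] at this
    have := Nat.one_le_pow k l hl
    omega

omit [Field Ω] in
/-- Evenness of lists that can be paired off. -/
theorem even_length (P : Ω → Prop) (r : Ω → Ω → Prop) (Pred : List Ω → Prop)
    (hstep : ∀ (a : Ω) (l : List Ω), (∀ b ∈ a :: l, P b) → Pred (a :: l) →
      ∃ (b : Ω) (l1 l2 : List Ω), l = l1 ++ b :: l2 ∧ r a b ∧ Pred (l1 ++ l2)) :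
    ∀ (n : ℕ) (l : List Ω), l.length ≤ n → (∀ b ∈ l, P b) → Pred l → ∃ j, l.length = 2 * j := by
  intro n
  induction n with
  | zero =>
    intro l hl _ _
    exact ⟨0, by omega⟩
  | succ n ih =>
    intro l hl hP hpred
    match l, hl, hP, hpred with
    | [], _, _, _ => exact ⟨0, rfl⟩
    | a :: l, hl, hP, hpred =>
      obtain ⟨b, l1, l2, rfl, _, hp⟩ := hstep a l hP hpred
      obtain ⟨j, hj⟩ := ih (l1 ++ l2) (by
        simp only [List.length_cons, List.length_append] at hl ⊢; omega) (by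
        intro c hc
        apply hP
        simp only [List.mem_append, List.mem_cons] at hc ⊢
        tauto) hp
      refine ⟨j + 1, ?_⟩
      simp only [List.length_cons, List.length_append] at hj ⊢
      omega

theorem result {l : ℕ} (hl : l.Prime) (k : ℕ) (s : ℕ) (h : ℚ[X]) (hirr : Irreducible h)
    (hdeg : h.natDegree = 2 * l ^ k) (hweil : ∀ z : ℂ, aeval z h = 0 → ‖z‖ = (s : ℝ))
    {L : Type*} [Field L] [CharZero L] (hsplit : (h.map (algebraMap ℚ L)).Splits)
    (v : L → ℚ) (hv : ∀ x y, x ≠ 0 → y ≠ 0 → v (x * y) = v x + v y)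
    (c : ℚ) (u : L → ℤ) (hu : ∀ a : L, aeval a h = 0 → (u a : ℚ) = c * (v (s : L) - v a))
    (hne : ∀ a : L, aeval a h = 0 → a ^ 2 ≠ (s : L) ^ 2)
    (hhalf : ∀ H : Finset L, (∀ a ∈ H, aeval a h = 0) →
      (∀ a : L, aeval a h = 0 → (a ∈ H ↔ (s : L) ^ 2 / a ∉ H)) → ¬ (l : ℤ) ∣ ∑ a ∈ H, u a)
    {Ω V : Type*} [Field Ω] [CharZero Ω] [AddCommGroup V] [Module Ω V] (F : V →ₗ[Ω] V)
    (hF : Submodule.span Ω {x : V | ∃ a : Ω,
      (aeval a h = 0 ∨ ∃ M : ℕ, 0 < M ∧ a ^ M = (s : Ω) ^ M) ∧ F x = a • x} = ⊤)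
    (n : ℕ) :
    tate F (s : Ω) n ⊆ Algebra.adjoin Ω (tate F (s : Ω) 1 ∪ tate F (s : Ω) 2) := by
  classical
  have : Fact l.Prime := ⟨hl⟩
  set Λ : Set Ω := {a : Ω | aeval a h = 0 ∨ ∃ M : ℕ, 0 < M ∧ a ^ M = (s : Ω) ^ M} with hΛ
  rintro x ⟨hxn, N, hN, hxN⟩
  have hmem := H83.TateLin.eig_mem_span (SymmetricAlgebra.ι Ω V) F Λ
    hF N (symMap (F ^ N)) (fun x => symMap_ι _ _) n ((s : Ω) ^ (N * n)) hxn hxN
  have hcomm : ∀ x y : V, SymmetricAlgebra.ι Ω V x * SymmetricAlgebra.ι Ω V y
      = (1 : Ω) • (SymmetricAlgebra.ι Ω V y * SymmetricAlgebra.ι Ω V x) := by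
    intro x y; rw [one_smul, mul_comm]
  refine (Submodule.span_le (p := Subalgebra.toSubmodule
    (Algebra.adjoin Ω (tate F (s : Ω) 1 ∪ tate F (s : Ω) 2)))).2 ?_ hmem
  rintro _ ⟨m, hm, hlen, hev, rfl⟩
  change H83.TateLin.pr (SymmetricAlgebra.ι Ω V) m ∈
    Algebra.adjoin Ω (tate F (s : Ω) 1 ∪ tate F (s : Ω) 2)
  -- a common multiple of the orders of the torsion eigenvalues
  obtain ⟨M, hM0, hM⟩ : ∃ M : ℕ, 0 < M ∧ ∀ p ∈ m, aeval p.2 h = 0 ∨ p.2 ^ M = (s : Ω) ^ M := by
    clear hev hlen hmem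
    induction m with
    | nil => exact ⟨1, one_pos, by simp⟩
    | cons p m ih =>
      obtain ⟨M, hM0, hM⟩ := ih (fun r hr => hm r (by simp [hr]))
      rcases (hm p (by simp)).2 with hp | ⟨M', hM'0, hM'⟩
      · refine ⟨M, hM0, ?_⟩
        intro r hr
        rcases List.mem_cons.1 hr with rfl | hr
        · exact Or.inl hp
        · exact hM r hr
      · refine ⟨M * M', Nat.mul_pos hM0 hM'0, ?_⟩
        intro r hr
        rcases List.mem_cons.1 hr with rfl | hr
        · right; rw [mul_comm, pow_mul, hM', ← pow_mul]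
        · rcases hM r hr with h' | h'
          · exact Or.inl h'
          · right; rw [pow_mul, h', ← pow_mul]
  set N' := N * M with hN'
  have hN'0 : 0 < N' := Nat.mul_pos hN hM0
  have hM' : ∀ p ∈ m, aeval p.2 h = 0 ∨ p.2 ^ N' = (s : Ω) ^ N' := by
    intro p hp
    rcases hM p hp with h' | h'
    · exact Or.inl h'
    · right; rw [hN', mul_comm, pow_mul, h', ← pow_mul]
  have hev' : H83.TateLin.ev N' m = (s : Ω) ^ (N' * n) := by
    have e : ∀ m : List (V × Ω), H83.TateLin.ev N' m = (H83.TateLin.ev N m) ^ M := by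
      intro m
      induction m with
      | nil => simp [H83.TateLin.ev]
      | cons p m ih =>
        rw [H83.TateLin.ev_cons, H83.TateLin.ev_cons, ih, mul_pow, hN', pow_mul]
    rw [e, hev, ← pow_mul, hN']
    congr 1; ring
  -- split the list
  set mr := m.filter (fun p => decide (aeval p.2 h = 0)) with hmr
  set mt := m.filter (fun p => !decide (aeval p.2 h = 0)) with hmt
  have hperm : m.Perm (mt ++ mr) := by
    have := (List.filter_append_perm (fun p : V × Ω => decide (aeval p.2 h = 0)) m).symm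
    exact this.trans List.perm_append_comm
  obtain ⟨e, he⟩ := H83.TateLin.pr_perm (SymmetricAlgebra.ι Ω V) (1 : Ω) hcomm hperm
  have hprapp : H83.TateLin.pr (SymmetricAlgebra.ι Ω V) (mt ++ mr)
      = H83.TateLin.pr (SymmetricAlgebra.ι Ω V) mt * H83.TateLin.pr (SymmetricAlgebra.ι Ω V) mr := by
    unfold H83.TateLin.pr
    rw [List.map_append, List.prod_append]
  have hmtmem : ∀ p ∈ mt, p ∈ m ∧ ¬ aeval p.2 h = 0 := by
    intro p hp
    rw [hmt, List.mem_filter] at hp
    simpa using hp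
  have hmrmem : ∀ p ∈ mr, p ∈ m ∧ aeval p.2 h = 0 := by
    intro p hp
    rw [hmr, List.mem_filter] at hp
    simpa using hp
  -- the torsion part
  have ht1 : ∀ mt : List (V × Ω), (∀ p ∈ mt, F p.1 = p.2 • p.1 ∧ p.2 ^ N' = (s : Ω) ^ N') →
      H83.TateLin.pr (SymmetricAlgebra.ι Ω V) mt ∈
        Algebra.adjoin Ω (tate F (s : Ω) 1 ∪ tate F (s : Ω) 2) := by
    intro mt
    induction mt with
    | nil => intro _; exact Subalgebra.one_mem _
    | cons p mt ih =>
      intro hp
      rw [H83.TateLin.pr_cons]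
      apply Subalgebra.mul_mem _ _ (ih (fun r hr => hp r (by simp [hr])))
      apply Algebra.subset_adjoin
      left
      refine ⟨?_, N', hN'0, ?_⟩
      · rw [pow_one]; exact ⟨p.1, rfl⟩
      · have := hp p (by simp)
        rw [symMap_ι, pow_apply F N' p.1 p.2 this.1, this.2, map_smul, mul_one]
  have hpt : H83.TateLin.pr (SymmetricAlgebra.ι Ω V) mt ∈
      Algebra.adjoin Ω (tate F (s : Ω) 1 ∪ tate F (s : Ω) 2) := by
    apply ht1
    intro p hp
    obtain ⟨h1, h2⟩ := hmtmem p hp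
    exact ⟨(hm p h1).1, (hM' p h1).resolve_left h2⟩
  -- the root part
  have hevt : ∀ mt : List (V × Ω), (∀ p ∈ mt, p.2 ^ N' = (s : Ω) ^ N') →
      H83.TateLin.ev N' mt = (s : Ω) ^ (N' * mt.length) := by
    intro mt
    induction mt with
    | nil => intro _; simp [H83.TateLin.ev]
    | cons p mt ih =>
      intro hp
      rw [H83.TateLin.ev_cons, ih (fun r hr => hp r (by simp [hr])), hp p (by simp), ← pow_add,
        List.length_cons]
      congr 1; ring
  obtain ⟨Pred, hP1, hP2⟩ := H83.TateGal.pairing h hirr hdeg ((s : ℚ) ^ 2)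
    (by intro z hz; rw [hweil z hz]; push_cast; rfl) hsplit v hv (c / 2) u
    (by
      intro a ha
      have hs0 : (s : L) ≠ 0 := by
        have := ne_zero_of_roots hl.pos k h hirr hdeg hweil
        exact_mod_cast this
      have hvs : v (((((s : ℚ) ^ 2 : ℚ)) : L)) = 2 * v (s : L) := by
        have : ((((s : ℚ) ^ 2 : ℚ)) : L) = (s : L) * (s : L) := by push_cast; ring
        rw [this, hv _ _ hs0 hs0]; ring
      rw [hu a ha, hvs]; ring)
    (by intro a ha; push_cast; exact hne a ha)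
    (by
      intro H hH1 hH2
      apply hhalf H hH1
      intro a ha
      have := hH2 a ha
      push_cast at this
      exact this) Ω hN'0
  have hroots : ∀ b ∈ mr.map Prod.snd, aeval b h = 0 := by
    intro b hb
    obtain ⟨p, hp, rfl⟩ := List.mem_map.1 hb
    exact (hmrmem p hp).2
  have hlenadd : mt.length + mr.length = n := by
    rw [← hlen, hperm.length_eq, List.length_append]
  have hevr : (H83.TateLin.ev N' mr) ^ 2 = (s : Ω) ^ (2 * (N' * mr.length)) := by
    have hs : (s : Ω) ≠ 0 := by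
      have := ne_zero_of_roots hl.pos k h hirr hdeg hweil
      exact_mod_cast this
    · have e1 : H83.TateLin.ev N' m = H83.TateLin.ev N' mt * H83.TateLin.ev N' mr := by
        have : (m.map (fun p : V × Ω => p.2 ^ N')).Perm
            ((mt ++ mr).map (fun p : V × Ω => p.2 ^ N')) := hperm.map _
        unfold H83.TateLin.ev
        rw [this.prod_eq, List.map_append, List.prod_append]
      have e2 := hevt mt (fun p hp => by
        obtain ⟨h1, h2⟩ := hmtmem p hp
        exact (hM' p h1).resolve_left h2)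
      rw [e1, e2, ← hlenadd, mul_add, pow_add] at hev'
      have e3 := mul_left_cancel₀ (pow_ne_zero _ hs) hev'
      rw [e3, ← pow_mul]
      congr 1; ring
  have hpred : Pred (mr.map Prod.snd) := by
    apply hP1 _ hroots
    rw [List.map_map, List.length_map]
    have : (mr.map ((fun a => a ^ N') ∘ Prod.snd)).prod = H83.TateLin.ev N' mr := rfl
    rw [this, hevr]
    push_cast
    rw [← pow_mul]
  obtain ⟨j, hj⟩ := even_length (fun b : Ω => aeval b h = 0) (fun a b => a * b = _) Pred hP2 _ _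
    le_rfl hroots hpred
  rw [List.length_map] at hj
  let T : Submodule Ω (SymmetricAlgebra Ω V) := Submodule.span Ω (tate F (s : Ω) 2)
  have hpr := H83.TateLin.pr_mem_pow (SymmetricAlgebra.ι Ω V) (1 : Ω) hcomm F
    {a : Ω | aeval a h = 0} (fun a b => a * b = ((((s : ℚ) ^ 2 : ℚ)) : Ω)) T (by
      intro x y a b hx hy _ _ hab
      apply Submodule.subset_span
      refine ⟨?_, 1, one_pos, ?_⟩
      · rw [sq]; exact Submodule.mul_mem_mul ⟨x, rfl⟩ ⟨y, rfl⟩
      · rw [map_mul, symMap_ι, symMap_ι, pow_one, hx, hy, map_smul, map_smul, smul_mul_smul_comm,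
          hab]
        push_cast; rfl) Pred hP2 j mr (by
      intro p hp
      exact ⟨(hm p (hmrmem p hp).1).1, (hmrmem p hp).2⟩) hpred hj
  have hTle : T ^ j ≤ Subalgebra.toSubmodule
      (Algebra.adjoin Ω (tate F (s : Ω) 1 ∪ tate F (s : Ω) 2)) := by
    clear hpr hj
    have hT1 : T ≤ Subalgebra.toSubmodule
        (Algebra.adjoin Ω (tate F (s : Ω) 1 ∪ tate F (s : Ω) 2)) := by
      apply Submodule.span_le.2
      intro y hy
      exact Algebra.subset_adjoin (Or.inr hy)
    induction j with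
    | zero =>
      rw [pow_zero, Submodule.one_le]
      exact Subalgebra.one_mem _
    | succ j ih =>
      rw [pow_succ, Submodule.mul_le]
      intro a ha b hb
      exact Subalgebra.mul_mem _ (ih ha) (hT1 hb)
  rw [he, hprapp]
  exact Subalgebra.smul_mem _ (Subalgebra.mul_mem _ hpt (hTle hpr)) e

end Pool.Agent.Results.MP_0fca13_ag.SurfacePowers
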